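import Mathlib

open MeasureTheory Set Real Filter Topology
open scoped InnerProductSpace

namespace Pool.Agent.Results.MP_44d715_an.CoerciveISS

/-- Lebesgue measure on the interval (0,1) -/
noncomputable abbrev μ01 : Measure ℝ := volume.restrict (Ioo (0:ℝ) 1)

/-- The state space X = L_2(0,1) (real). -/
noncomputable abbrev X := Lp ℝ 2 μ01

/-- The input space L_infinity(R_+, R) with the essential supremum norm. -/
noncomputable abbrev Input := Lp ℝ ⊤ (volume.restrict (Ioi (0:ℝ)))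

/-- The normalised Dirichlet eigenfunctions of d^2/dz^2 on (0,1): e_n(z) = sqrt 2 * sin (n pi z). -/
noncomputable def eigenfun (n : ℕ) (z : ℝ) : ℝ := √2 * sin (n * π * z)

/-! ### real analysis lemmas -/

/-- nice function -/
structure Nice (v : ℝ → ℝ) : Prop where
  meas : Measurable v
  bdd : ∃ M, ∀ s, |v s| ≤ M

lemma Nice.pow {v : ℝ → ℝ} (h : Nice v) (n : ℕ) : Nice (fun s => v s ^ n) := by
  obtain ⟨M, hM⟩ := h.bdd
  refine ⟨h.meas.pow_const n, M ^ n, fun s => ?_⟩
  rw [abs_pow]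
  exact pow_le_pow_left₀ (abs_nonneg _) (hM s) n

lemma Nice.intervalIntegrable {v : ℝ → ℝ} (h : Nice v) {K : ℝ → ℝ} (hK : Continuous K) (a b : ℝ) :
    IntervalIntegrable (fun s => K s * v s) volume a b := by
  obtain ⟨M, hM⟩ := h.bdd
  have h1 : IntervalIntegrable K volume a b := hK.intervalIntegrable a b
  refine ⟨?_, ?_⟩
  · exact Integrable.mul_bdd h1.1 h.meas.aestronglyMeasurable (Filter.Eventually.of_forall (fun s => by simpa using hM s))
  · exact Integrable.mul_bdd h1.2 h.meas.aestronglyMeasurable (Filter.Eventually.of_forall (fun s => by simpa using hM s))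

lemma cs {K v : ℝ → ℝ} (hK : Continuous K) (hK0 : ∀ s, 0 ≤ K s) (h : Nice v) {t : ℝ} (ht : 0 ≤ t) :
    (∫ s in (0:ℝ)..t, K s * v s) ^ 2 ≤ (∫ s in (0:ℝ)..t, K s) * ∫ s in (0:ℝ)..t, K s * v s ^ 2 := by
  have key : ∀ a : ℝ, 0 ≤ (∫ s in (0:ℝ)..t, K s) * (a * a) + (-2 * ∫ s in (0:ℝ)..t, K s * v s) * a
      + ∫ s in (0:ℝ)..t, K s * v s ^ 2 := by
    intro a
    have h0 : 0 ≤ ∫ s in (0:ℝ)..t, K s * (v s - a) ^ 2 :=
      intervalIntegral.integral_nonneg ht (fun s _ => mul_nonneg (hK0 s) (sq_nonneg _))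
    have h1 : ∫ s in (0:ℝ)..t, K s * (v s - a) ^ 2 =
        (∫ s in (0:ℝ)..t, K s) * (a * a) + (-2 * ∫ s in (0:ℝ)..t, K s * v s) * a
      + ∫ s in (0:ℝ)..t, K s * v s ^ 2 := by
      rw [← intervalIntegral.integral_mul_const, ← intervalIntegral.integral_const_mul,
        ← intervalIntegral.integral_mul_const, ← intervalIntegral.integral_add,
        ← intervalIntegral.integral_add]
      · congr 1; ext s; ring
      · exact ((hK.intervalIntegrable _ _).mul_const _).add
          (((h.intervalIntegrable hK _ _).const_mul _).mul_const _)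
      · exact (h.pow 2).intervalIntegrable hK _ _
      · exact ((hK.intervalIntegrable _ _).mul_const _)
      · exact (((h.intervalIntegrable hK _ _).const_mul _).mul_const _)
    linarith
  have := discrim_le_zero key
  rw [discrim] at this
  nlinarith

lemma cs8 {K v : ℝ → ℝ} (hK : Continuous K) (hK0 : ∀ s, 0 ≤ K s) (h : Nice v) {t : ℝ} (ht : 0 ≤ t) :
    (∫ s in (0:ℝ)..t, K s * v s) ^ 8 ≤ (∫ s in (0:ℝ)..t, K s) ^ 7 * ∫ s in (0:ℝ)..t, K s * v s ^ 8 := by
  have h1 := cs hK hK0 h ht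
  have h2 := cs hK hK0 (h.pow 2) ht
  have h4 := cs hK hK0 (h.pow 4) ht
  simp only [← pow_mul] at h2 h4
  norm_num at h2 h4
  set A := ∫ s in (0:ℝ)..t, K s
  set I1 := ∫ s in (0:ℝ)..t, K s * v s
  set I2 := ∫ s in (0:ℝ)..t, K s * v s ^ 2
  set I4 := ∫ s in (0:ℝ)..t, K s * v s ^ 4
  set I8 := ∫ s in (0:ℝ)..t, K s * v s ^ 8
  have hA : 0 ≤ A := intervalIntegral.integral_nonneg ht (fun s _ => hK0 s)
  have hI2 : 0 ≤ I2 := intervalIntegral.integral_nonneg ht (fun s _ => mul_nonneg (hK0 s) (by positivity))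
  have hI4 : 0 ≤ I4 := intervalIntegral.integral_nonneg ht (fun s _ => mul_nonneg (hK0 s) (by positivity))
  have hI8 : 0 ≤ I8 := intervalIntegral.integral_nonneg ht (fun s _ => mul_nonneg (hK0 s) (by positivity))
  calc I1 ^ 8 = (I1 ^ 2) ^ 4 := by ring
    _ ≤ (A * I2) ^ 4 := pow_le_pow_left₀ (sq_nonneg _) h1 4
    _ = A ^ 4 * (I2 ^ 2) ^ 2 := by ring
    _ ≤ A ^ 4 * (A * I4) ^ 2 := by gcongr
    _ = A ^ 6 * I4 ^ 2 := by ring
    _ ≤ A ^ 6 * (A * I8) := by gcongr
    _ = A ^ 7 * I8 := by ring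

lemma int_exp {l t : ℝ} (hl : 1 ≤ l) (ht : 0 ≤ t) : ∫ s in (0:ℝ)..t, exp (-(l * (t - s))) ≤ 1 / l := by
  have hl0 : (0:ℝ) < l := by linarith
  have h : ∀ s ∈ uIcc 0 t, HasDerivAt (fun s => exp (-(l * (t - s))) / l) (exp (-(l * (t - s)))) s := by
    intro s _
    have h1 : HasDerivAt (fun s : ℝ => -(l * (t - s))) (-(l * (-1))) s :=
      (((hasDerivAt_id' s).const_sub t).const_mul l).fun_neg
    have := h1.exp.div_const l
    refine this.congr_deriv ?_
    rw [div_eq_iff hl0.ne']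
    ring
  rw [intervalIntegral.integral_eq_sub_of_hasDerivAt h ((by fun_prop : Continuous fun s => exp (-(l * (t - s)))).intervalIntegrable _ _)]
  simp only [sub_self, mul_zero, neg_zero, exp_zero]
  have : 0 ≤ exp (-(l * (t - 0))) / l := by positivity
  linarith

lemma conv8 {l t : ℝ} (hl : 1 ≤ l) (ht : 0 ≤ t) {v : ℝ → ℝ} (h : Nice v) :
    (∫ s in (0:ℝ)..t, exp (-(l * (t - s))) * v s) ^ 8 ≤
      (1 / l) ^ 7 * ∫ s in (0:ℝ)..t, exp (-(t - s)) * v s ^ 8 := by
  have hl0 : (0:ℝ) < l := by linarith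
  refine (cs8 (K := fun s => exp (-(l * (t - s)))) (by fun_prop) (fun s => (exp_pos _).le) h ht).trans ?_
  have h1 : 0 ≤ ∫ s in (0:ℝ)..t, exp (-(l * (t - s))) :=
    intervalIntegral.integral_nonneg ht (fun s _ => (exp_pos _).le)
  have h2 : ∫ s in (0:ℝ)..t, exp (-(l * (t - s))) * v s ^ 8 ≤ ∫ s in (0:ℝ)..t, exp (-(t - s)) * v s ^ 8 := by
    apply intervalIntegral.integral_mono_on ht
    · exact (h.pow 8).intervalIntegrable (by fun_prop) _ _
    · exact (h.pow 8).intervalIntegrable (by fun_prop) _ _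
    · intro s hs
      have : 0 ≤ t - s := by linarith [hs.2]
      have h3 : exp (-(l * (t - s))) ≤ exp (-(t - s)) := by
        apply exp_le_exp.mpr
        nlinarith
      have h4 : 0 ≤ v s ^ 8 := by positivity
      exact mul_le_mul_of_nonneg_right h3 h4
  have h5 : 0 ≤ ∫ s in (0:ℝ)..t, exp (-(l * (t - s))) * v s ^ 8 :=
    intervalIntegral.integral_nonneg ht (fun s _ => mul_nonneg (exp_pos _).le (by positivity))
  calc _ ≤ (1 / l) ^ 7 * ∫ s in (0:ℝ)..t, exp (-(l * (t - s))) * v s ^ 8 := by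
        apply mul_le_mul_of_nonneg_right _ h5
        exact pow_le_pow_left₀ h1 (int_exp hl ht) 7
    _ ≤ _ := by
        apply mul_le_mul_of_nonneg_left h2 (by positivity)

/-! ### the system in square summable sequences -/

abbrev E := lp (fun _ : ℕ => ℝ) 2

lemma E_norm_sq (x : E) : ‖x‖ ^ 2 = ∑' k, (x k) ^ 2 := by
  have := lp.norm_rpow_eq_tsum (p := 2) (by norm_num) x
  simpa using this

lemma E_summable (x : E) : Summable (fun k => (x k) ^ 2) := by
  have := (lp.memℓp x).summable (by norm_num)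
  simpa using this

lemma mem_of_summable {f : ℕ → ℝ} (h : Summable fun k => f k ^ 2) : Memℓp f 2 := by
  apply memℓp_gen
  simpa using h

structure Par (l b r : ℕ → ℝ) : Prop where
  hl : ∀ k, 1 ≤ l k
  hr : ∀ k, 0 ≤ r k
  hsum : Summable r
  hb : ∀ k, b k ^ 8 * (1 / l k) ^ 7 ≤ r k ^ 4

variable {l b r : ℕ → ℝ}

/-- forced coefficients -/
noncomputable def Fc (l b : ℕ → ℝ) (t : ℝ) (v : ℝ → ℝ) (k : ℕ) : ℝ :=
  b k * ∫ s in (0:ℝ)..t, exp (-(l k * (t - s))) * v s

noncomputable def I8 (t : ℝ) (v : ℝ → ℝ) : ℝ := ∫ s in (0:ℝ)..t, exp (-(t - s)) * v s ^ 8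

lemma I8_nonneg {t : ℝ} (ht : 0 ≤ t) (v : ℝ → ℝ) : 0 ≤ I8 t v :=
  intervalIntegral.integral_nonneg ht (fun s _ => mul_nonneg (exp_pos _).le (by positivity))

lemma Fc_sq_le (P : Par l b r) {t : ℝ} (ht : 0 ≤ t) {v : ℝ → ℝ} (h : Nice v) (k : ℕ) :
    (Fc l b t v k) ^ 2 ≤ r k * √(√(I8 t v)) := by
  have hI := I8_nonneg ht v
  have hJ : (√(√(I8 t v))) ^ 4 = I8 t v := by
    rw [show (√(√(I8 t v))) ^ 4 = ((√(√(I8 t v))) ^ 2) ^ 2 by ring, Real.sq_sqrt (Real.sqrt_nonneg _),
      Real.sq_sqrt hI]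
  have h1 : ((Fc l b t v k) ^ 2) ^ 4 ≤ (r k * √(√(I8 t v))) ^ 4 := by
    rw [mul_pow, hJ]
    have h2 := conv8 (P.hl k) ht h
    have h3 : ((Fc l b t v k) ^ 2) ^ 4 = b k ^ 8 * (∫ s in (0:ℝ)..t, exp (-(l k * (t - s))) * v s) ^ 8 := by
      rw [Fc]; ring
    rw [h3]
    calc _ ≤ b k ^ 8 * ((1 / l k) ^ 7 * I8 t v) := by
          apply mul_le_mul_of_nonneg_left h2 (by positivity)
      _ = (b k ^ 8 * (1 / l k) ^ 7) * I8 t v := by ring
      _ ≤ _ := mul_le_mul_of_nonneg_right (P.hb k) hI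
  exact le_of_pow_le_pow_left₀ (by norm_num) (mul_nonneg (P.hr k) (Real.sqrt_nonneg _)) h1

lemma Fc_summable (P : Par l b r) {t : ℝ} (ht : 0 ≤ t) {v : ℝ → ℝ} (h : Nice v) :
    Summable fun k => (Fc l b t v k) ^ 2 :=
  Summable.of_nonneg_of_le (fun _ => sq_nonneg _) (Fc_sq_le P ht h) (P.hsum.mul_right _)

open Classical in
noncomputable def F (l b : ℕ → ℝ) (t : ℝ) (v : ℝ → ℝ) : E :=
  if h : Memℓp (Fc l b t v) 2 then ⟨Fc l b t v, h⟩ else 0

lemma F_apply (P : Par l b r) {t : ℝ} (ht : 0 ≤ t) {v : ℝ → ℝ} (h : Nice v) (k : ℕ) :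
    F l b t v k = Fc l b t v k := by
  rw [F, dif_pos (mem_of_summable (Fc_summable P ht h))]

lemma F_norm (P : Par l b r) {t : ℝ} (ht : 0 ≤ t) {v : ℝ → ℝ} (h : Nice v) :
    ‖F l b t v‖ ^ 8 ≤ (∑' k, r k) ^ 4 * I8 t v := by
  have hI := I8_nonneg ht v
  have hJ : (√(√(I8 t v))) ^ 4 = I8 t v := by
    rw [show (√(√(I8 t v))) ^ 4 = ((√(√(I8 t v))) ^ 2) ^ 2 by ring, Real.sq_sqrt (Real.sqrt_nonneg _),
      Real.sq_sqrt hI]
  have h1 : ‖F l b t v‖ ^ 2 ≤ (∑' k, r k) * √(√(I8 t v)) := by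
    rw [E_norm_sq, ← tsum_mul_right]
    apply Summable.tsum_le_tsum _ (E_summable _) (P.hsum.mul_right _)
    intro k
    rw [F_apply P ht h]
    exact Fc_sq_le P ht h k
  calc ‖F l b t v‖ ^ 8 = (‖F l b t v‖ ^ 2) ^ 4 := by ring
    _ ≤ ((∑' k, r k) * √(√(I8 t v))) ^ 4 := pow_le_pow_left₀ (sq_nonneg _) h1 4
    _ = _ := by rw [mul_pow, hJ]

lemma S_mem (hl : ∀ k, 1 ≤ l k) (t : ℝ) (x : E) :
    Memℓp (fun k => exp (-(l k * max t 0)) * x k) 2 := by
  apply mem_of_summable
  refine Summable.of_nonneg_of_le (fun _ => sq_nonneg _) (fun k => ?_) (E_summable x)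
  rw [mul_pow]
  have h1 : exp (-(l k * max t 0)) ≤ 1 := by
    apply exp_le_one_iff.mpr
    have := mul_nonneg (zero_le_one.trans (hl k)) (le_max_right t 0)
    linarith
  have h2 : exp (-(l k * max t 0)) ^ 2 ≤ 1 := pow_le_one₀ (exp_pos _).le h1
  nlinarith [sq_nonneg (x k)]

open Classical in
noncomputable def S (l : ℕ → ℝ) (t : ℝ) (x : E) : E :=
  if h : Memℓp (fun k => exp (-(l k * max t 0)) * x k) 2 then ⟨_, h⟩ else 0

lemma S_apply (hl : ∀ k, 1 ≤ l k) {t : ℝ} (ht : 0 ≤ t) (x : E) (k : ℕ) :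
    S l t x k = exp (-(l k * t)) * x k := by
  rw [S, dif_pos (S_mem hl t x)]
  simp [max_eq_left ht]

lemma S_norm (hl : ∀ k, 1 ≤ l k) {t : ℝ} (ht : 0 ≤ t) (x : E) : ‖S l t x‖ ≤ exp (-t) * ‖x‖ := by
  refine le_of_pow_le_pow_left₀ (n := 2) (by norm_num) (by positivity) ?_
  rw [mul_pow, E_norm_sq, E_norm_sq, ← tsum_mul_left]
  apply Summable.tsum_le_tsum _ (E_summable _) ((E_summable x).mul_left _)
  intro k
  rw [S_apply hl ht, mul_pow]
  apply mul_le_mul_of_nonneg_right _ (sq_nonneg _)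
  apply pow_le_pow_left₀ (exp_pos _).le
  apply exp_le_exp.mpr
  nlinarith [hl k]

noncomputable def phi (l b : ℕ → ℝ) (t : ℝ) (x : E) (v : ℝ → ℝ) : E := S l t x + F l b t v

lemma phi_apply (P : Par l b r) {t : ℝ} (ht : 0 ≤ t) (x : E) {v : ℝ → ℝ} (h : Nice v) (k : ℕ) :
    phi l b t x v k = exp (-(l k * t)) * x k + Fc l b t v k := by
  rw [phi, lp.coeFn_add, Pi.add_apply, S_apply P.hl ht, F_apply P ht h]


/-- concatenation of inputs at time `h` -/
noncomputable def cat (h : ℝ) (u v : ℝ → ℝ) (s : ℝ) : ℝ := if s ≤ h then u s else v (s - h)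

lemma Nice.cat {u v : ℝ → ℝ} (hu : Nice u) (hv : Nice v) (h : ℝ) : Nice (cat h u v) := by
  obtain ⟨M, hM⟩ := hu.bdd
  obtain ⟨N, hN⟩ := hv.bdd
  refine ⟨?_, max M N, fun s => ?_⟩
  · exact Measurable.ite measurableSet_Iic hu.meas (hv.meas.comp (measurable_id.sub_const h))
  · unfold Pool.Agent.Results.MP_44d715_an.CoerciveISS.cat
    split_ifs
    · exact (hM s).trans (le_max_left _ _)
    · exact (hN _).trans (le_max_right _ _)

lemma int_cat {K : ℝ → ℝ} (hK : Continuous K) {u v : ℝ → ℝ} (hu : Nice u) (hv : Nice v) {h t : ℝ}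
    (hh : 0 ≤ h) (ht : 0 ≤ t) (n : ℕ) :
    ∫ s in (0:ℝ)..(t + h), K s * cat h u v s ^ n =
      (∫ s in (0:ℝ)..h, K s * u s ^ n) + ∫ s in (0:ℝ)..t, K (s + h) * v s ^ n := by
  have hc := (hu.cat hv h).pow n
  rw [← intervalIntegral.integral_add_adjacent_intervals (hc.intervalIntegrable hK 0 h)
    (hc.intervalIntegrable hK h (t + h))]
  congr 1
  · apply intervalIntegral.integral_congr
    intro s hs
    rw [uIcc_of_le hh] at hs
    simp only [cat, if_pos hs.2]
  · have h1 : ∫ s in (0:ℝ)..t, K (s + h) * v s ^ n = ∫ s in (0:ℝ)..t, (fun s => K s * v (s - h) ^ n) (s + h) := by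
      apply intervalIntegral.integral_congr
      intro s _
      simp
    rw [h1, intervalIntegral.integral_comp_add_right (f := fun s => K s * v (s - h) ^ n) h, zero_add]
    apply intervalIntegral.integral_congr_ae
    filter_upwards with s hs
    rw [uIoc_of_le (by linarith)] at hs
    simp only [cat, if_neg (not_le.mpr hs.1)]

lemma Fc_cat {u v : ℝ → ℝ} (hu : Nice u) (hv : Nice v) {h t : ℝ} (hh : 0 ≤ h) (ht : 0 ≤ t) (k : ℕ) :
    Fc l b (t + h) (cat h u v) k = exp (-(l k * t)) * Fc l b h u k + Fc l b t v k := by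
  have := int_cat (K := fun s => exp (-(l k * (t + h - s)))) (by fun_prop) hu hv hh ht 1
  simp only [pow_one] at this
  have h1 : ∫ s in (0:ℝ)..h, exp (-(l k * (t + h - s))) * u s =
      exp (-(l k * t)) * ∫ s in (0:ℝ)..h, exp (-(l k * (h - s))) * u s := by
    rw [← intervalIntegral.integral_const_mul]
    apply intervalIntegral.integral_congr
    intro s _
    simp only
    rw [← mul_assoc, ← exp_add]
    congr 2
    ring
  have h2 : ∫ s in (0:ℝ)..t, exp (-(l k * (t + h - (s + h)))) * v s =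
      ∫ s in (0:ℝ)..t, exp (-(l k * (t - s))) * v s := by
    apply intervalIntegral.integral_congr
    intro s _
    simp only
    congr 3
    ring
  rw [Fc, this, Fc, Fc, h1, h2]
  ring

lemma phi_cat (P : Par l b r) {u v : ℝ → ℝ} (hu : Nice u) (hv : Nice v) {h t : ℝ} (hh : 0 ≤ h)
    (ht : 0 ≤ t) (x : E) :
    phi l b (t + h) x (cat h u v) = phi l b t (phi l b h x u) v := by
  ext k
  rw [phi_apply P (by linarith) x (hu.cat hv h), phi_apply P ht _ hv, phi_apply P hh x hu,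
    Fc_cat hu hv hh ht]
  rw [show -(l k * (t + h)) = -(l k * t) + -(l k * h) by ring, exp_add]
  ring

lemma phi_affine (P : Par l b r) {v : ℝ → ℝ} (hv : Nice v) {t : ℝ} (ht : 0 ≤ t) (x y : E) {a c : ℝ}
    (hac : a + c = 1) :
    phi l b t (a • x + c • y) v = a • phi l b t x v + c • phi l b t y v := by
  ext k
  rw [lp.coeFn_add, Pi.add_apply, lp.coeFn_smul, lp.coeFn_smul, Pi.smul_apply, Pi.smul_apply,
    phi_apply P ht _ hv, phi_apply P ht _ hv, phi_apply P ht _ hv,
    lp.coeFn_add, Pi.add_apply, lp.coeFn_smul, lp.coeFn_smul, Pi.smul_apply, Pi.smul_apply]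
  simp only [smul_eq_mul]
  linear_combination (-(Fc l b t v k)) * hac

/-- admissible index: time and input -/
structure Idx where
  t : ℝ
  v : ℝ → ℝ
  ht : 0 ≤ t
  hv : Nice v

instance : Nonempty Idx := ⟨⟨0, fun _ => 0, le_rfl, ⟨measurable_const, 0, by simp⟩⟩⟩

noncomputable def val (l b : ℕ → ℝ) (C : ℝ) (x : E) (i : Idx) : ℝ :=
  exp i.t * ‖phi l b i.t x i.v‖ ^ 8 - C * ∫ s in (0:ℝ)..i.t, exp s * i.v s ^ 8

noncomputable def V (l b : ℕ → ℝ) (C : ℝ) (x : E) : ℝ := ⨆ i : Idx, val l b C x i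

lemma val_le (P : Par l b r) {C : ℝ} (hC : 128 * (∑' k, r k) ^ 4 ≤ C) (x : E) (i : Idx) :
    val l b C x i ≤ 128 * ‖x‖ ^ 8 := by
  obtain ⟨t, v, ht, hv⟩ := i
  simp only [val]
  have h1 : ‖phi l b t x v‖ ^ 8 ≤ 128 * (exp (-t) * ‖x‖) ^ 8 + 128 * ((∑' k, r k) ^ 4 * I8 t v) := by
    have h2 : ‖phi l b t x v‖ ≤ exp (-t) * ‖x‖ + ‖F l b t v‖ :=
      (norm_add_le _ _).trans (add_le_add_left (S_norm P.hl ht x) _)
    have h3 : ‖phi l b t x v‖ ^ 8 ≤ (exp (-t) * ‖x‖ + ‖F l b t v‖) ^ 8 :=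
      pow_le_pow_left₀ (norm_nonneg _) h2 8
    have h4 := add_pow_le (a := exp (-t) * ‖x‖) (b := ‖F l b t v‖) (by positivity) (by positivity) 8
    have h5 := F_norm P ht hv
    norm_num at h4
    nlinarith
  have h6 : exp t * I8 t v = ∫ s in (0:ℝ)..t, exp s * v s ^ 8 := by
    rw [I8, ← intervalIntegral.integral_const_mul]
    congr 1
    ext s
    rw [← mul_assoc, ← exp_add]
    congr 2
    ring
  have h7 : exp t * (exp (-t) * ‖x‖) ^ 8 ≤ ‖x‖ ^ 8 := by
    rw [mul_pow, ← mul_assoc, ← exp_nat_mul, ← exp_add]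
    have : exp (t + ((8:ℕ):ℝ) * -t) ≤ 1 := by
      apply exp_le_one_iff.mpr
      push_cast
      linarith
    nlinarith [pow_nonneg (norm_nonneg x) 8]
  have h8 : 0 ≤ ∫ s in (0:ℝ)..t, exp s * v s ^ 8 :=
    intervalIntegral.integral_nonneg ht (fun s _ => mul_nonneg (exp_pos _).le (by positivity))
  calc exp t * ‖phi l b t x v‖ ^ 8 - C * ∫ s in (0:ℝ)..t, exp s * v s ^ 8
      ≤ exp t * (128 * (exp (-t) * ‖x‖) ^ 8 + 128 * ((∑' k, r k) ^ 4 * I8 t v)) -
        C * ∫ s in (0:ℝ)..t, exp s * v s ^ 8 := by gcongr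
    _ = 128 * (exp t * (exp (-t) * ‖x‖) ^ 8) + (128 * (∑' k, r k) ^ 4 - C) *
        ∫ s in (0:ℝ)..t, exp s * v s ^ 8 := by rw [← h6]; ring
    _ ≤ 128 * ‖x‖ ^ 8 + 0 := by
        apply add_le_add
        · linarith
        · exact mul_nonpos_of_nonpos_of_nonneg (by linarith) h8
    _ = _ := by ring

lemma val_bdd (P : Par l b r) {C : ℝ} (hC : 128 * (∑' k, r k) ^ 4 ≤ C) (x : E) :
    BddAbove (range (val l b C x)) :=
  ⟨128 * ‖x‖ ^ 8, by rintro _ ⟨i, rfl⟩; exact val_le P hC x i⟩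

lemma V_le (P : Par l b r) {C : ℝ} (hC : 128 * (∑' k, r k) ^ 4 ≤ C) (x : E) :
    V l b C x ≤ 128 * ‖x‖ ^ 8 := ciSup_le (val_le P hC x)

lemma le_V (P : Par l b r) {C : ℝ} (hC : 128 * (∑' k, r k) ^ 4 ≤ C) (x : E) :
    ‖x‖ ^ 8 ≤ V l b C x := by
  have hn : Nice (fun _ => (0:ℝ)) := ⟨measurable_const, 0, by simp⟩
  have h0 : phi l b 0 x (fun _ => 0) = x := by
    ext k
    rw [phi_apply P le_rfl x hn]
    simp [Fc]
  have := le_ciSup (val_bdd P hC x) ⟨0, fun _ => 0, le_rfl, hn⟩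
  rw [V]
  refine le_trans (le_of_eq ?_) this
  simp [val, h0]

lemma V_convex (P : Par l b r) {C : ℝ} (hC : 128 * (∑' k, r k) ^ 4 ≤ C) :
    ConvexOn ℝ univ (V l b C) := by
  refine ⟨convex_univ, fun x _ y _ a c ha hc hac => ?_⟩
  apply ciSup_le
  intro i
  have hx := le_ciSup (val_bdd P hC x) i
  have hy := le_ciSup (val_bdd P hC y) i
  have h1 : val l b C (a • x + c • y) i ≤ a • val l b C x i + c • val l b C y i := by
    have h2 : ConvexOn ℝ univ (fun z : E => ‖z‖ ^ 8) := convexOn_univ_norm.pow (fun _ _ => norm_nonneg _) 8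
    have h3 := h2.2 (mem_univ (phi l b i.t x i.v)) (mem_univ (phi l b i.t y i.v)) ha hc hac
    rw [← phi_affine P i.hv i.ht x y hac] at h3
    simp only [val, smul_eq_mul] at h3 ⊢
    have h4 := mul_le_mul_of_nonneg_left h3 (exp_pos i.t).le
    have h5 : c = 1 - a := by linarith
    subst h5
    linarith
  refine h1.trans ?_
  exact add_le_add (mul_le_mul_of_nonneg_left hx ha) (mul_le_mul_of_nonneg_left hy hc)

lemma V_cont (P : Par l b r) {C : ℝ} (hC : 128 * (∑' k, r k) ^ 4 ≤ C) : Continuous (V l b C) := by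
  rw [continuous_iff_continuousAt]
  intro x₀
  have h := ConvexOn.lipschitzOnWith_of_abs_le (f := V l b C) (x₀ := x₀) (r := 1) (ε := 1 / 2)
    (M := 128 * (‖x₀‖ + 1) ^ 8) ((V_convex P hC).subset (subset_univ _) (convex_ball _ _)) (by norm_num)
    (fun a ha => by
      rw [abs_of_nonneg ((by positivity : (0:ℝ) ≤ ‖a‖ ^ 8).trans (le_V P hC a))]
      refine (V_le P hC a).trans ?_
      have : ‖a‖ ≤ ‖x₀‖ + 1 := by
        have h1 : ‖a‖ ≤ ‖a - x₀‖ + ‖x₀‖ := by
          simpa using norm_add_le (a - x₀) x₀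
        rw [dist_eq_norm] at ha
        linarith
      gcongr)
  exact h.continuousOn.continuousAt (Metric.ball_mem_nhds _ (by norm_num))

lemma V_dissip (P : Par l b r) {C : ℝ} (hC : 128 * (∑' k, r k) ^ 4 ≤ C) (x : E) {u : ℝ → ℝ}
    (hu : Nice u) {M : ℝ} (hM : ∀ s, |u s| ≤ M) {h : ℝ} (hh : 0 ≤ h) :
    V l b C (phi l b h x u) ≤ exp (-h) * V l b C x + C * (h * M ^ 8) := by
  have hC0 : 0 ≤ C := le_trans (mul_nonneg (by norm_num) (pow_nonneg (tsum_nonneg P.hr) 4)) hC
  apply ciSup_le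
  rintro ⟨t, v, ht, hv⟩
  simp only [val]
  rw [← phi_cat P hu hv hh ht]
  have h1 := int_cat (K := fun s => exp s) (by fun_prop) hu hv hh ht 8
  have h2 := le_ciSup (val_bdd P hC x) ⟨t + h, cat h u v, by linarith, hu.cat hv h⟩
  simp only [val] at h2
  change _ ≤ V l b C x at h2
  have h3 : ∫ s in (0:ℝ)..t, exp (s + h) * v s ^ 8 = exp h * ∫ s in (0:ℝ)..t, exp s * v s ^ 8 := by
    rw [← intervalIntegral.integral_const_mul]
    congr 1
    ext s
    rw [exp_add]; ring
  rw [h1, h3, exp_add] at h2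
  have h4 : ∫ s in (0:ℝ)..h, exp s * u s ^ 8 ≤ exp h * (h * M ^ 8) := by
    calc ∫ s in (0:ℝ)..h, exp s * u s ^ 8 ≤ ∫ s in (0:ℝ)..h, exp h * M ^ 8 := by
          apply intervalIntegral.integral_mono_on hh
          · exact (hu.pow 8).intervalIntegrable (by fun_prop) _ _
          · exact intervalIntegrable_const
          · intro s hs
            have h5 : u s ^ 8 ≤ M ^ 8 := by
              have := pow_le_pow_left₀ (abs_nonneg _) (hM s) 8
              rwa [← abs_pow, abs_of_nonneg (by positivity)] at this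
            have h6 : exp s ≤ exp h := exp_le_exp.mpr hs.2
            have h7 : 0 ≤ u s ^ 8 := by positivity
            exact mul_le_mul h6 h5 h7 (exp_pos _).le
      _ = _ := by simp
  set W := V l b C x
  set A := ‖phi l b (t + h) x (cat h u v)‖ ^ 8
  set B := ∫ s in (0:ℝ)..t, exp s * v s ^ 8
  set D := ∫ s in (0:ℝ)..h, exp s * u s ^ 8
  have h8 : exp (-h) * exp h = 1 := by rw [← exp_add]; simp
  have h9 : 0 < exp (-h) := exp_pos _
  calc exp t * A - C * B = exp (-h) * (exp t * exp h * A - C * (D + exp h * B)) + C * (exp (-h) * D) := by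
        linear_combination (-(exp t * A - C * B)) * h8
    _ ≤ exp (-h) * W + C * (exp (-h) * (exp h * (h * M ^ 8))) := by gcongr
    _ = _ := by rw [← mul_assoc (exp (-h)), h8, one_mul]

/-! ### the sine basis -/

lemma eigenfun_cont (n : ℕ) : Continuous (eigenfun n) := by
  unfold eigenfun; fun_prop

lemma eigenfun_memLp (n : ℕ) : MemLp (eigenfun n) 2 μ01 := by
  apply MemLp.of_bound (eigenfun_cont n).aestronglyMeasurable (√2)
  filter_upwards with z
  rw [eigenfun, norm_mul, Real.norm_eq_abs, Real.norm_eq_abs, abs_of_nonneg (Real.sqrt_nonneg 2)]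
  exact mul_le_of_le_one_right (Real.sqrt_nonneg 2) (abs_sin_le_one _)

/-- e_n as an element of X -/
noncomputable def ev (n : ℕ) : X := (eigenfun_memLp n).toLp

lemma inner_ev (f : X) (n : ℕ) : ⟪ev n, f⟫_ℝ = ∫ z, f z * eigenfun n z ∂μ01 := by
  rw [L2.inner_def]
  apply integral_congr_ae
  filter_upwards [(eigenfun_memLp n).coeFn_toLp] with z hz
  rw [ev, hz]
  simp [mul_comm]

lemma int01 (f : ℝ → ℝ) : ∫ z, f z ∂μ01 = ∫ z in (0:ℝ)..1, f z := by
  rw [intervalIntegral.integral_of_le zero_le_one, integral_Ioc_eq_integral_Ioo]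

lemma int_cos (m : ℤ) : ∫ z in (0:ℝ)..1, cos (m * π * z) = if m = 0 then 1 else 0 := by
  split_ifs with h
  · simp [h]
  · have hm : (m:ℝ) * π ≠ 0 := mul_ne_zero (by exact_mod_cast h) pi_ne_zero
    rw [intervalIntegral.integral_comp_mul_left (fun z => cos z) hm, integral_cos]
    simp [sin_int_mul_pi]

lemma ev_orthonormal : Orthonormal ℝ (fun k : ℕ => ev (k + 1)) := by
  rw [orthonormal_iff_ite]
  intro i j
  rw [inner_ev]
  have h1 : ∫ z, (ev (j + 1) : X) z * eigenfun (i + 1) z ∂μ01 =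
      ∫ z, eigenfun (j + 1) z * eigenfun (i + 1) z ∂μ01 := by
    apply integral_congr_ae
    filter_upwards [(eigenfun_memLp (j + 1)).coeFn_toLp] with z hz
    rw [ev, hz]
  rw [h1, int01]
  have h2 : ∀ z, eigenfun (j + 1) z * eigenfun (i + 1) z =
      cos (((j : ℤ) - i : ℤ) * π * z) - cos (((j : ℤ) + i + 2 : ℤ) * π * z) := by
    intro z
    have e1 : (((j : ℤ) - i : ℤ) : ℝ) * π * z = ((j + 1 : ℕ) : ℝ) * π * z - ((i + 1 : ℕ) : ℝ) * π * z := by
      push_cast; ring
    have e2 : (((j : ℤ) + i + 2 : ℤ) : ℝ) * π * z = ((j + 1 : ℕ) : ℝ) * π * z + ((i + 1 : ℕ) : ℝ) * π * z := by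
      push_cast; ring
    rw [e1, e2, cos_sub, cos_add, eigenfun, eigenfun]
    have : √2 * √2 = 2 := Real.mul_self_sqrt (by norm_num)
    linear_combination (sin (((j + 1 : ℕ) : ℝ) * π * z) * sin (((i + 1 : ℕ) : ℝ) * π * z)) * this
  simp_rw [h2]
  rw [intervalIntegral.integral_sub, int_cos, int_cos]
  · have h3 : ((j : ℤ) + i + 2) ≠ 0 := by omega
    rw [if_neg h3]
    by_cases h : i = j
    · simp [h]
    · have : (j : ℤ) - i ≠ 0 := by omega
      simp [h, this]
  · exact Continuous.intervalIntegrable (by fun_prop) _ _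
  · exact Continuous.intervalIntegrable (by fun_prop) _ _

lemma X_integrable (f : X) : Integrable f μ01 := (Lp.memLp f).integrable (by norm_num)

lemma X_integrable_mul (f : X) {g : ℝ → ℝ} (hg : Continuous g) {M : ℝ} (hM : ∀ z ∈ Ioo (0:ℝ) 1, |g z| ≤ M) :
    Integrable (fun z => f z * g z) μ01 := by
  apply Integrable.mul_bdd (c := M) (X_integrable f) hg.aestronglyMeasurable
  filter_upwards [ae_restrict_mem measurableSet_Ioo] with z hz using hM z hz

lemma complete_aux1 (f : X) (hf : ∀ k : ℕ, ⟪ev (k + 1), f⟫_ℝ = 0) (n : ℕ) :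
    ∀ m : ℕ, ∫ z, f z * (cos (π * z) ^ n * sin (m * π * z)) ∂μ01 = 0 := by
  induction n with
  | zero =>
    intro m
    cases m with
    | zero => simp
    | succ k =>
      have := hf k
      rw [inner_ev] at this
      simp only [eigenfun] at this
      have h2 : ∀ z, f z * (√2 * sin (((k + 1 : ℕ) : ℝ) * π * z)) =
        √2 * (f z * (cos (π * z) ^ 0 * sin (((k + 1 : ℕ) : ℝ) * π * z))) := by intro z; ring
      simp_rw [h2] at this
      rw [integral_const_mul] at this
      rcases mul_eq_zero.mp this with h | h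
      · exact absurd h (by positivity)
      · exact h
  | succ n ih =>
    intro m
    cases m with
    | zero => simp
    | succ m =>
      have h1 : ∀ z, f z * (cos (π * z) ^ (n + 1) * sin (((m + 1 : ℕ) : ℝ) * π * z)) =
          (1 / 2) * (f z * (cos (π * z) ^ n * sin (((m + 2 : ℕ) : ℝ) * π * z))) +
          (1 / 2) * (f z * (cos (π * z) ^ n * sin ((m : ℝ) * π * z))) := by
        intro z
        have e1 : ((m + 2 : ℕ) : ℝ) * π * z = ((m + 1 : ℕ) : ℝ) * π * z + π * z := by push_cast; ring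
        have e2 : (m : ℝ) * π * z = ((m + 1 : ℕ) : ℝ) * π * z - π * z := by push_cast; ring
        rw [e1, e2, sin_add, sin_sub]
        ring
      simp_rw [h1]
      have hint : ∀ m : ℕ, Integrable (fun z => f z * (cos (π * z) ^ n * sin ((m : ℝ) * π * z))) μ01 := by
        intro m
        apply X_integrable_mul f (by fun_prop) (M := 1)
        intro z _
        rw [abs_mul, abs_pow]
        exact mul_le_one₀ (pow_le_one₀ (abs_nonneg _) (abs_cos_le_one _)) (abs_nonneg _) (abs_sin_le_one _)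
      rw [integral_add ((hint _).const_mul _) ((hint _).const_mul _), integral_const_mul,
        integral_const_mul, ih, ih]
      simp

lemma complete_aux2 (f : X) (hf : ∀ k : ℕ, ⟪ev (k + 1), f⟫_ℝ = 0) (q : Polynomial ℝ) :
    ∫ z, f z * (q.eval (cos (π * z)) * sin (π * z)) ∂μ01 = 0 := by
  have hb : ∀ q : Polynomial ℝ, Integrable (fun z => f z * (q.eval (cos (π * z)) * sin (π * z))) μ01 := by
    intro q
    have hc : Continuous (fun z => q.eval (cos (π * z)) * sin (π * z)) := by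
      have := q.continuous
      fun_prop
    obtain ⟨M, hM⟩ := (isCompact_Icc (a := (0:ℝ)) (b := 1)).exists_bound_of_continuousOn hc.continuousOn
    exact X_integrable_mul f hc (M := M) (fun z hz => hM z (Ioo_subset_Icc_self hz))
  induction q using Polynomial.induction_on' with
  | add p q hp hq =>
    simp_rw [Polynomial.eval_add, add_mul, mul_add]
    rw [integral_add (hb p) (hb q), hp, hq, add_zero]
  | monomial n a =>
    have := complete_aux1 f hf n 1
    simp_rw [Polynomial.eval_monomial]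
    have h1 : ∀ z, f z * (a * cos (π * z) ^ n * sin (π * z)) =
      a * (f z * (cos (π * z) ^ n * sin (((1:ℕ):ℝ) * π * z))) := by
      intro z
      rw [Nat.cast_one, one_mul]; ring
    simp_rw [h1]
    rw [integral_const_mul, this, mul_zero]

lemma complete_aux3 (f : X) (hf : ∀ k : ℕ, ⟪ev (k + 1), f⟫_ℝ = 0) (h : ℝ → ℝ) (hc : Continuous h) :
    ∫ z, h z * (f z * sin (π * z)) ∂μ01 = 0 := by
  set N := ∫ z, |f z| ∂μ01
  have hN : 0 ≤ N := integral_nonneg (fun z => abs_nonneg _)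
  have hbound : ∀ ε : ℝ, 0 < ε → |∫ z, h z * (f z * sin (π * z)) ∂μ01| ≤ ε * N := by
    intro ε hε
    obtain ⟨p, hp⟩ := exists_polynomial_near_of_continuousOn (-1) 1 (fun y => h (arccos y / π))
      (by fun_prop) ε hε
    have hp2 := complete_aux2 f hf p
    have hpc : Continuous (fun z => p.eval (cos (π * z)) * sin (π * z)) := by
      have := p.continuous
      fun_prop
    obtain ⟨M, hM⟩ := (isCompact_Icc (a := (0:ℝ)) (b := 1)).exists_bound_of_continuousOn hpc.continuousOn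
    have hc2 : Continuous (fun z => h z * sin (π * z)) := by fun_prop
    obtain ⟨M', hM'⟩ := (isCompact_Icc (a := (0:ℝ)) (b := 1)).exists_bound_of_continuousOn hc2.continuousOn
    have hi1 : Integrable (fun z => f z * (h z * sin (π * z))) μ01 :=
      X_integrable_mul f hc2 (M := M') (fun z hz => hM' z (Ioo_subset_Icc_self hz))
    have hi2 : Integrable (fun z => f z * (p.eval (cos (π * z)) * sin (π * z))) μ01 :=
      X_integrable_mul f hpc (M := M) (fun z hz => hM z (Ioo_subset_Icc_self hz))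
    have h1 : ∫ z, h z * (f z * sin (π * z)) ∂μ01 =
        ∫ z, (f z * (h z * sin (π * z)) - f z * (p.eval (cos (π * z)) * sin (π * z))) ∂μ01 := by
      rw [integral_sub hi1 hi2, hp2, sub_zero]
      congr 1; ext z; ring
    rw [h1]
    calc |∫ z, (f z * (h z * sin (π * z)) - f z * (p.eval (cos (π * z)) * sin (π * z))) ∂μ01|
        ≤ ∫ z, |f z * (h z * sin (π * z)) - f z * (p.eval (cos (π * z)) * sin (π * z))| ∂μ01 :=
          abs_integral_le_integral_abs
      _ ≤ ∫ z, ε * |f z| ∂μ01 := by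
          apply integral_mono_ae (hi1.sub hi2).abs ((X_integrable f).abs.const_mul _)
          filter_upwards [ae_restrict_mem measurableSet_Ioo] with z hz
          have h2 := hp (cos (π * z)) ⟨neg_one_le_cos _, cos_le_one _⟩
          have h3 : arccos (cos (π * z)) / π = z := by
            rw [arccos_cos (by have := pi_pos; nlinarith [hz.1]) (by have := pi_pos; nlinarith [hz.2])]
            field_simp
          rw [h3] at h2
          have h4 : f z * (h z * sin (π * z)) - f z * (p.eval (cos (π * z)) * sin (π * z)) =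
            -((p.eval (cos (π * z)) - h z) * sin (π * z)) * f z := by ring
          rw [Pi.sub_apply]
          rw [h4, abs_mul, abs_neg, abs_mul]
          have h5 : |p.eval (cos (π * z)) - h z| * |sin (π * z)| ≤ ε * 1 :=
            mul_le_mul h2.le (abs_sin_le_one _) (abs_nonneg _) hε.le
          rw [mul_one] at h5
          exact mul_le_mul_of_nonneg_right h5 (abs_nonneg _)
      _ = ε * N := by rw [integral_const_mul]
  by_contra hne
  have hpos : 0 < |∫ z, h z * (f z * sin (π * z)) ∂μ01| := abs_pos.mpr hne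
  have := hbound (|∫ z, h z * (f z * sin (π * z)) ∂μ01| / (2 * (N + 1))) (by positivity)
  rw [div_mul_eq_mul_div, le_div_iff₀ (by positivity)] at this
  nlinarith

lemma ev_complete (f : X) (hf : ∀ k : ℕ, ⟪ev (k + 1), f⟫_ℝ = 0) : f = 0 := by
  have h1 : ∀ᵐ z ∂μ01, f z * sin (π * z) = 0 := by
    apply ae_eq_zero_of_integral_contDiff_smul_eq_zero
    · apply Integrable.locallyIntegrable
      exact X_integrable_mul f (by fun_prop) (M := 1) (fun z _ => abs_sin_le_one _)
    · intro g hg _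
      exact complete_aux3 f hf g hg.continuous
  rw [Lp.eq_zero_iff_ae_eq_zero]
  filter_upwards [h1, ae_restrict_mem measurableSet_Ioo] with z hz hz2
  have : 0 < sin (π * z) := by
    apply sin_pos_of_pos_of_lt_pi
    · exact mul_pos pi_pos hz2.1
    · have := pi_pos; nlinarith [hz2.2]
  rcases mul_eq_zero.mp hz with h | h
  · simpa using h
  · exact absurd h this.ne'

noncomputable def sineBasis : HilbertBasis ℕ ℝ X :=
  HilbertBasis.mkOfOrthogonalEqBot ev_orthonormal (by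
    rw [Submodule.eq_bot_iff]
    intro f hf
    apply ev_complete
    intro k
    exact (Submodule.mem_orthogonal _ f).mp hf _ (Submodule.subset_span (mem_range_self k)))

lemma sineBasis_apply (k : ℕ) : sineBasis k = ev (k + 1) := by
  rw [sineBasis, HilbertBasis.coe_mkOfOrthogonalEqBot]

/-- The eigenvalue of -A for the eigenfunction e_n: (n pi)^2. -/
noncomputable def lam (n : ℕ) : ℝ := (n * π) ^ 2

/-- The Dirichlet heat semigroup on X: T(t) x = sum over n >= 1 of exp(-(n pi)^2 t) <e_n, x> e_n. -/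
noncomputable def heatSemigroup (t : ℝ) (x : X) : X :=
  ∑' k : ℕ, (exp (-(lam (k + 1) * t)) * ⟪ev (k + 1), x⟫_ℝ) • ev (k + 1)

/-- The n-th coordinate of the Dirichlet boundary control operator B : R -> X_{-1}, namely
minus the derivative of e_n at the right end point. -/
noncomputable def controlCoord (n : ℕ) : ℝ := -(deriv (eigenfun n) 1)

/-- The input-to-state part, the integral over s from 0 to t of T_{-1}(t-s) B u(s), written in the
eigenbasis. -/
noncomputable def inputMap (t : ℝ) (u : Input) : X :=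
  ∑' k : ℕ, (∫ s in (0:ℝ)..t, exp (-(lam (k + 1) * (t - s))) * (controlCoord (k + 1) * u s)) •
    ev (k + 1)

/-- The mild solution of the heat equation with Dirichlet input at z = 1. -/
noncomputable def mild (t : ℝ) (x : X) (u : Input) : X := heatSemigroup t x + inputMap t u

/-- Class K comparison functions. -/
structure ClassK (f : ℝ → ℝ) : Prop where
  zero : f 0 = 0
  cont : ContinuousOn f (Ici 0)
  mono : StrictMonoOn f (Ici 0)

/-- Class K_infinity comparison functions. -/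
structure ClassKInf (f : ℝ → ℝ) : Prop where
  classK : ClassK f
  unbounded : Tendsto f atTop atTop

/-- The derivative of V along the trajectory: limsup of (V(phi(h,x,u)) - V(x))/h as h -> 0+,
as an extended real. -/
noncomputable def lieDerivative (V : X → ℝ) (x : X) (u : Input) : EReal :=
  Filter.limsup (fun h : ℝ => (((V (mild h x u) - V x) / h : ℝ) : EReal)) (𝓝[>] 0)

/-- Coercive ISS Lyapunov functions for the boundary controlled heat equation. -/
def IsCoerciveISSLyapunov (V : X → ℝ) : Prop :=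
  Continuous V ∧ (∀ x, 0 ≤ V x) ∧
    ∃ ψ₁ ψ₂ α σ : ℝ → ℝ, ClassKInf ψ₁ ∧ ClassKInf ψ₂ ∧ ClassKInf α ∧ ClassK σ ∧
      (∀ x : X, ψ₁ ‖x‖ ≤ V x ∧ V x ≤ ψ₂ ‖x‖) ∧
      ∀ (x : X) (u : Input), lieDerivative V x u ≤ ((-α ‖x‖ + σ ‖u‖ : ℝ) : EReal)

/-! ### proof -/

noncomputable def lk (k : ℕ) : ℝ := lam (k + 1)
noncomputable def bk (k : ℕ) : ℝ := controlCoord (k + 1)
noncomputable def rk (k : ℕ) : ℝ := 2 * (((k + 1 : ℕ) : ℝ) * π) ^ (-(3 / 2) : ℝ)

lemma controlCoord_eq (n : ℕ) : controlCoord n = -(√2 * (n * π) * cos (n * π)) := by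
  have h : HasDerivAt (eigenfun n) (√2 * (cos (n * π * 1) * (n * π))) 1 := by
    have h1 : HasDerivAt (fun z : ℝ => (n:ℝ) * π * z) (n * π) 1 := by
      simpa using (hasDerivAt_id (1:ℝ)).const_mul ((n:ℝ) * π)
    exact h1.sin.const_mul (√2)
  rw [controlCoord, h.deriv]
  ring_nf

lemma par : Par lk bk rk := by
  have hpos : ∀ k : ℕ, (0:ℝ) < ((k + 1 : ℕ) : ℝ) * π := fun k => by positivity
  refine ⟨fun k => ?_, fun k => ?_, ?_, fun k => ?_⟩
  · rw [lk, lam]
    have h1 : (1:ℝ) ≤ ((k + 1 : ℕ) : ℝ) * π := by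
      have h2 : (1:ℝ) ≤ ((k + 1 : ℕ) : ℝ) := by exact_mod_cast Nat.succ_le_succ (Nat.zero_le k)
      have h3 := pi_gt_three
      nlinarith
    exact one_le_pow₀ h1
  · have := hpos k
    rw [rk]; positivity
  · have h1 : Summable (fun n : ℕ => ((n + 1 : ℕ) : ℝ) ^ (-(3 / 2) : ℝ)) :=
      (summable_nat_add_iff 1).mpr (Real.summable_nat_rpow.mpr (by norm_num))
    have h2 : rk = fun k => (2 * π ^ (-(3 / 2) : ℝ)) * ((k + 1 : ℕ) : ℝ) ^ (-(3 / 2) : ℝ) := by
      ext k
      rw [rk, Real.mul_rpow (by positivity) pi_pos.le]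
      ring
    rw [h2]
    exact h1.mul_left _
  · set a : ℝ := ((k + 1 : ℕ) : ℝ) * π with ha
    have ha0 : 0 < a := hpos k
    have hcos : cos a ^ 2 = 1 := by
      have h1 : sin a = 0 := by rw [ha]; exact sin_nat_mul_pi _
      have := sin_sq_add_cos_sq a
      rw [h1] at this
      simpa using this
    have hb : bk k ^ 8 = 16 * a ^ 8 := by
      have h2 : √2 ^ 2 = 2 := Real.sq_sqrt (by norm_num)
      rw [bk, controlCoord_eq, ← ha]
      calc (-(√2 * a * cos a)) ^ 8 = (√2 ^ 2) ^ 4 * a ^ 8 * (cos a ^ 2) ^ 4 := by ring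
        _ = 16 * a ^ 8 := by rw [h2, hcos]; norm_num
    have hr : rk k ^ 4 = 16 * (a ^ 6)⁻¹ := by
      rw [rk, ← ha, mul_pow, ← Real.rpow_natCast (a ^ (-(3 / 2) : ℝ)) 4, ← Real.rpow_mul ha0.le]
      have : (-(3 / 2) : ℝ) * ((4 : ℕ) : ℝ) = -((6 : ℕ) : ℝ) := by norm_num
      rw [this, Real.rpow_neg ha0.le, Real.rpow_natCast]
      norm_num
    rw [hb, hr, lk, lam, ← ha]
    apply le_of_eq
    field_simp

lemma repr_eq (x : X) (k : ℕ) : sineBasis.repr x k = ⟪ev (k + 1), x⟫_ℝ := by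
  rw [HilbertBasis.repr_apply_apply, sineBasis_apply]

lemma heatSemigroup_repr {t : ℝ} (ht : 0 ≤ t) (x : X) :
    sineBasis.repr (heatSemigroup t x) = S lk t (sineBasis.repr x) := by
  have h := (sineBasis.hasSum_repr_symm (S lk t (sineBasis.repr x))).tsum_eq
  have h2 : heatSemigroup t x = sineBasis.repr.symm (S lk t (sineBasis.repr x)) := by
    rw [← h, heatSemigroup]
    congr 1
    ext1 k
    rw [S_apply par.hl ht, repr_eq, sineBasis_apply, lk]
  rw [h2, LinearIsometryEquiv.apply_symm_apply]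

lemma inputMap_repr {t : ℝ} (ht : 0 ≤ t) (u : Input) {v : ℝ → ℝ} (hv : Nice v)
    (huv : ∀ᵐ s ∂(volume.restrict (Ioi (0:ℝ))), u s = v s) :
    sineBasis.repr (inputMap t u) = F lk bk t v := by
  have h := (sineBasis.hasSum_repr_symm (F lk bk t v)).tsum_eq
  have h2 : inputMap t u = sineBasis.repr.symm (F lk bk t v) := by
    rw [← h, inputMap]
    congr 1
    ext1 k
    rw [F_apply par ht hv, sineBasis_apply, Fc, ← intervalIntegral.integral_const_mul]
    congr 1
    apply intervalIntegral.integral_congr_ae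
    rw [ae_restrict_iff' measurableSet_Ioi] at huv
    filter_upwards [huv] with s hs hs2
    rw [uIoc_of_le ht] at hs2
    rw [hs hs2.1, lk, bk]
    ring
  rw [h2, LinearIsometryEquiv.apply_symm_apply]

lemma exists_rep (u : Input) : ∃ v : ℝ → ℝ, Nice v ∧ (∀ s, |v s| ≤ ‖u‖) ∧
    ∀ᵐ s ∂(volume.restrict (Ioi (0:ℝ))), u s = v s := by
  have hm : StronglyMeasurable (u : ℝ → ℝ) := Lp.stronglyMeasurable u
  refine ⟨fun s => if |u s| ≤ ‖u‖ then u s else 0, ⟨?_, ‖u‖, ?_⟩, ?_, ?_⟩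
  · apply Measurable.ite _ hm.measurable measurable_const
    exact measurableSet_le (by simpa using hm.measurable.norm) measurable_const
  · intro s
    split_ifs with h
    · exact h
    · simp
  · intro s
    dsimp only
    split_ifs with h
    · exact h
    · simp
  · have h1 : ∀ᵐ s ∂(volume.restrict (Ioi (0:ℝ))), ‖u s‖ ≤ ‖u‖ := by
      have h2 := ae_le_eLpNormEssSup (f := (u : ℝ → ℝ)) (μ := volume.restrict (Ioi (0:ℝ)))
      filter_upwards [h2] with s hs
      rw [← eLpNorm_exponent_top] at hs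
      have h3 : eLpNorm (u : ℝ → ℝ) ⊤ (volume.restrict (Ioi (0:ℝ))) ≠ ⊤ := Lp.eLpNorm_ne_top u
      rw [Lp.norm_def]
      have := ENNReal.toReal_mono h3 hs
      simpa using this
    filter_upwards [h1] with s hs
    rw [Real.norm_eq_abs] at hs
    rw [if_pos hs]

lemma mild_repr {t : ℝ} (ht : 0 ≤ t) (x : X) (u : Input) {v : ℝ → ℝ} (hv : Nice v)
    (huv : ∀ᵐ s ∂(volume.restrict (Ioi (0:ℝ))), u s = v s) :
    sineBasis.repr (mild t x u) = phi lk bk t (sineBasis.repr x) v := by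
  rw [mild, map_add, heatSemigroup_repr ht, inputMap_repr ht u hv huv, phi]

/-- Sanity check: the coordinates of the mild solution. -/
theorem mild_coord {t : ℝ} (ht : 0 ≤ t) (x : X) (u : Input) (n : ℕ) (hn : 1 ≤ n) :
    ⟪ev n, mild t x u⟫_ℝ = exp (-(lam n * t)) * ⟪ev n, x⟫_ℝ +
      ∫ s in (0:ℝ)..t, exp (-(lam n * (t - s))) * (controlCoord n * u s) := by
  obtain ⟨k, rfl⟩ : ∃ k, n = k + 1 := ⟨n - 1, by omega⟩
  obtain ⟨v, hv, -, huv⟩ := exists_rep u
  rw [← repr_eq, mild_repr ht x u hv huv, phi_apply par ht _ hv, repr_eq, lk, Fc, lk, bk,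
    ← intervalIntegral.integral_const_mul]
  congr 1
  apply intervalIntegral.integral_congr_ae
  rw [ae_restrict_iff' measurableSet_Ioi] at huv
  filter_upwards [huv] with s hs hs2
  rw [uIoc_of_le ht] at hs2
  rw [hs hs2.1]
  ring

/-- Sanity check: the mild solution starts at x. -/
theorem mild_zero (x : X) (u : Input) : mild 0 x u = x := by
  obtain ⟨v, hv, -, huv⟩ := exists_rep u
  apply sineBasis.repr.injective
  rw [mild_repr le_rfl x u hv huv]
  ext k
  rw [phi_apply par le_rfl _ hv]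
  simp [Fc]

lemma classKInf_pow8 : ClassKInf (fun s => s ^ 8) := by
  refine ⟨⟨by norm_num, by fun_prop, ?_⟩, tendsto_pow_atTop (by norm_num)⟩
  intro a ha b _ hab
  exact pow_lt_pow_left₀ hab ha (by norm_num)

lemma classKInf_mul_pow8 {c : ℝ} (hc : 0 < c) : ClassKInf (fun s => c * s ^ 8) := by
  refine ⟨⟨by norm_num, by fun_prop, ?_⟩, (tendsto_pow_atTop (by norm_num)).const_mul_atTop hc⟩
  intro a ha b _ hab
  exact mul_lt_mul_of_pos_left (pow_lt_pow_left₀ hab ha (by norm_num)) hc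

/-- The heat equation with Dirichlet boundary input admits a coercive ISS Lyapunov function. -/
theorem result : ∃ V : X → ℝ, IsCoerciveISSLyapunov V := by
  set C : ℝ := 128 * (∑' k, rk k) ^ 4 + 1 with hCdef
  have hC : 128 * (∑' k, rk k) ^ 4 ≤ C := by linarith
  have hC0 : 0 < C := by
    have : 0 ≤ (∑' k, rk k) ^ 4 := pow_nonneg (tsum_nonneg par.hr) 4
    linarith
  refine ⟨fun x => V lk bk C (sineBasis.repr x), ?_, ?_, fun s => s ^ 8, fun s => 128 * s ^ 8,
    fun s => s ^ 8, fun s => C * s ^ 8, classKInf_pow8, classKInf_mul_pow8 (by norm_num),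
    classKInf_pow8, (classKInf_mul_pow8 hC0).classK, ?_, ?_⟩
  · exact (V_cont par hC).comp sineBasis.repr.continuous
  · intro x
    exact (by positivity : (0:ℝ) ≤ ‖sineBasis.repr x‖ ^ 8).trans (le_V par hC _)
  · intro x
    have h1 := le_V par hC (sineBasis.repr x)
    have h2 := V_le par hC (sineBasis.repr x)
    rw [LinearIsometryEquiv.norm_map] at h1 h2
    exact ⟨h1, h2⟩
  · intro x u
    obtain ⟨v, hv, hvM, huv⟩ := exists_rep u
    set W := V lk bk C (sineBasis.repr x) with hW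
    have hWx : ‖x‖ ^ 8 ≤ W := by
      have h1 := le_V par hC (sineBasis.repr x)
      rwa [LinearIsometryEquiv.norm_map] at h1
    have hstep : ∀ᶠ h : ℝ in 𝓝[>] 0,
        (((V lk bk C (sineBasis.repr (mild h x u)) - W) / h : ℝ) : EReal) ≤
          (((exp (-h) - 1) / h * W + C * ‖u‖ ^ 8 : ℝ) : EReal) := by
      filter_upwards [self_mem_nhdsWithin] with h hh
      rw [EReal.coe_le_coe_iff]
      have hh0 : (0:ℝ) < h := hh
      have h1 := V_dissip par hC (sineBasis.repr x) hv hvM hh0.le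
      rw [← mild_repr hh0.le x u hv huv] at h1
      rw [div_le_iff₀ hh0]
      have h2 : ((exp (-h) - 1) / h * W + C * ‖u‖ ^ 8) * h = (exp (-h) - 1) * W + C * (h * ‖u‖ ^ 8) := by
        field_simp
      rw [h2]
      linarith
    have hlim : Tendsto (fun h : ℝ => (((exp (-h) - 1) / h * W + C * ‖u‖ ^ 8 : ℝ) : EReal)) (𝓝[>] 0)
        (𝓝 (((-1) * W + C * ‖u‖ ^ 8 : ℝ) : EReal)) := by
      apply (continuous_coe_real_ereal.tendsto _).comp
      apply Tendsto.add_const
      apply Tendsto.mul_const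
      have h1 : HasDerivAt (fun h : ℝ => exp (-h)) (-1) 0 := by
        have := (hasDerivAt_neg (0:ℝ)).exp
        simpa using this
      have h2 := h1.tendsto_slope_zero_right
      refine h2.congr' ?_
      filter_upwards with h
      simp [div_eq_inv_mul]
    calc lieDerivative (fun x => V lk bk C (sineBasis.repr x)) x u
        ≤ Filter.limsup (fun h : ℝ => (((exp (-h) - 1) / h * W + C * ‖u‖ ^ 8 : ℝ) : EReal)) (𝓝[>] 0) :=
          Filter.limsup_le_limsup hstep
      _ = (((-1) * W + C * ‖u‖ ^ 8 : ℝ) : EReal) := hlim.limsup_eq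
      _ ≤ ((-(‖x‖ ^ 8) + C * ‖u‖ ^ 8 : ℝ) : EReal) := by
          rw [EReal.coe_le_coe_iff]
          linarith

end Pool.Agent.Results.MP_44d715_an.CoerciveISS
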